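import Pool.Agent.H58.FN.Targets

/-!
Rows TR3 and RD3 of the board fnc (MP_6a7a6f_gt): the phase of a triangle and the number `rad 3`.
-/

set_option autoImplicit false

open Pool.Agent.H59 Pool.Agent.H48.FR Pool.Agent.H58.FL Pool.Agent.H30.FA Pool.Agent.H58.FM
  Pool.Agent.H58.FN

namespace Pool.Agent.H91.FN

theorem tr3_sq : Real.cos (Real.pi / 7) = 2 * Real.cos (Real.pi / 14) ^ 2 - 1 := by
  rw [← Real.cos_two_mul]
  congr 1
  ring

theorem tr3_c7 : 898 / 1000 < Real.cos (Real.pi / 7) ∧ Real.cos (Real.pi / 7) < 1 := by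
  have hp := Real.pi_pos
  have hp2 : Real.pi < 3.15 := Real.pi_lt_d2
  constructor
  · have h1 := Real.one_sub_sq_div_two_le_cos (x := Real.pi / 7)
    nlinarith
  · have h1 : Real.cos (Real.pi / 7) < Real.cos 0 := by
      apply Real.cos_lt_cos_of_nonneg_of_le_pi le_rfl (by linarith) (by positivity)
    rwa [Real.cos_zero] at h1

theorem tr3_c14 : 0 < Real.cos (Real.pi / 14) := by
  apply Real.cos_pos_of_mem_Ioo
  constructor <;> linarith [Real.pi_pos]

theorem tr3_k3 : k3 = 1 / (2 * (1 + Real.cos (Real.pi / 7))) := by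
  unfold k3
  rw [tr3_sq]
  congr 1
  ring

theorem tr3_kpos : 0 < k3 ∧ k3 < 1 / 2 := by
  obtain ⟨h1, h2⟩ := tr3_c7
  rw [tr3_k3]
  constructor
  · positivity
  · rw [div_lt_div_iff₀ (by linarith) (by norm_num)]
    linarith

theorem pf_TR3 (hTR2 : T_TR2) : T_TR3 := by
  intro E _ _ a b c ha hb hc hab hbc hca
  obtain ⟨hk0, hk1⟩ := tr3_kpos
  have hC := tr3_c14
  unfold Ad3 at hab hbc hca
  have h1 := (hTR2 E a b c ha hb hc).1 k3 hk0 hab.le hbc.le hca.le
  set s : ℝ := ‖inner ℂ a b‖ with hs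
  set C : ℝ := Real.cos (Real.pi / 14) with hCdef
  set s0 : ℝ := 1 / (2 * C) with hs0
  have hs0p : 0 < s0 := by positivity
  have hk : k3 = s0 ^ 2 := by
    rw [hs0]
    unfold k3
    rw [← hCdef, div_pow]
    ring
  have hss : s0 < s := by
    rw [hk] at hab
    exact lt_of_pow_lt_pow_left₀ 2 (norm_nonneg _) hab
  have hsp : 0 < s := hs0p.trans hss
  -- the value at the border
  have hval : (s0 ^ 2 - (1 - 2 * k3)) / (2 * k3 * s0) = Real.cos (11 * Real.pi / 14) := by
    have e1 : Real.cos (11 * Real.pi / 14) = -(4 * C ^ 3 - 3 * C) := by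
      rw [hCdef, ← Real.cos_three_mul, ← Real.cos_pi_sub]
      congr 1
      ring
    rw [e1, hk, hs0]
    field_simp
    ring
  have hlt : (s0 ^ 2 - (1 - 2 * k3)) / (2 * k3 * s0) < (s ^ 2 - (1 - 2 * k3)) / (2 * k3 * s) := by
    rw [div_lt_div_iff₀ (by positivity) (by positivity)]
    have h2 : 0 < (s - s0) * (s * s0 + (1 - 2 * k3)) := by
      apply mul_pos (by linarith)
      have : 0 < s * s0 := mul_pos hsp hs0p
      linarith
    have h3 : 0 < 2 * k3 * ((s - s0) * (s * s0 + (1 - 2 * k3))) := by positivity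
    nlinarith
  have hcos : Real.cos (11 * Real.pi / 14) < Real.cos (ar a b c) := by
    rw [← hval]
    exact lt_of_lt_of_le hlt h1
  by_contra hcon
  push Not at hcon
  have h4 : |ar a b c| ≤ Real.pi := Complex.abs_arg_le_pi _
  have h5 : Real.cos |ar a b c| ≤ Real.cos (11 * Real.pi / 14) := by
    apply Real.cos_le_cos_of_nonneg_of_le_pi _ h4 hcon
    have := Real.pi_pos
    positivity
  rw [Real.cos_abs] at h5
  linarith

/-- the cubic equation of `cos (π / 7)` -/
theorem rd3_cubic : 8 * Real.cos (Real.pi / 7) ^ 3 - 4 * Real.cos (Real.pi / 7) ^ 2 -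
    4 * Real.cos (Real.pi / 7) + 1 = 0 := by
  set c := Real.cos (Real.pi / 7) with hc
  have h1 : Real.cos (3 * (Real.pi / 7)) = 4 * c ^ 3 - 3 * c := Real.cos_three_mul _
  have h2 : Real.cos (2 * (2 * (Real.pi / 7))) = 2 * (2 * c ^ 2 - 1) ^ 2 - 1 := by
    rw [Real.cos_two_mul, Real.cos_two_mul]
  have h3 : Real.cos (2 * (2 * (Real.pi / 7))) = -Real.cos (3 * (Real.pi / 7)) := by
    rw [← Real.cos_pi_sub]
    congr 1
    ring
  have h4 : (c + 1) * (8 * c ^ 3 - 4 * c ^ 2 - 4 * c + 1) = 0 := by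
    rw [h2, h1] at h3
    linear_combination h3
  rcases mul_eq_zero.1 h4 with h | h
  · have := tr3_c7.1
    linarith
  · exact h

theorem rd3_c : 90095 / 100000 < Real.cos (Real.pi / 7) ∧
    Real.cos (Real.pi / 7) < 90114 / 100000 := by
  have h0 := rd3_cubic
  obtain ⟨h1, h2⟩ := tr3_c7
  set c := Real.cos (Real.pi / 7) with hc
  constructor
  · by_contra hcon
    push Not at hcon
    nlinarith [mul_nonneg (sub_nonneg.2 hcon) (sub_nonneg.2 h1.le), sq_nonneg (c - 9 / 10),
      mul_nonneg (sub_nonneg.2 hcon) (sq_nonneg c)]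
  · by_contra hcon
    push Not at hcon
    nlinarith [mul_nonneg (sub_nonneg.2 hcon) (sub_nonneg.2 h1.le), sq_nonneg (c - 9 / 10),
      mul_nonneg (sub_nonneg.2 hcon) (sq_nonneg c)]

theorem pf_RD3 : T_RD3 := by
  obtain ⟨hc1, hc2⟩ := rd3_c
  have hk3 := tr3_k3
  obtain ⟨hk0, hk1⟩ := tr3_kpos
  set c := Real.cos (Real.pi / 7) with hc
  have hrad : rad 3 = Real.arccos (2 * k3 - 1) / 4 := by
    unfold rad
    have e1 : Real.pi / (2 * ((3 : ℕ) : ℝ) + 1) = Real.pi / 7 := by norm_num
    rw [e1, ← hc, hk3]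
    congr 2
    have : 1 + c ≠ 0 := by linarith
    field_simp
    ring
  refine ⟨hrad, ?_, ?_, ?_, fun ε hε => ?_⟩
  · rw [hrad]
    have h1 : Real.arccos (2 * k3 - 1) < 2 * Real.pi / 3 := by
      have h2 : Real.arccos (-(1 / 2)) = 2 * Real.pi / 3 := by
        have h3 : Real.arccos (1 / 2) = Real.pi / 3 := by
          rw [← Real.cos_pi_div_three, Real.arccos_cos (by positivity)
            (by linarith [Real.pi_pos])]
        rw [Real.arccos_neg, h3]
        ring
      rw [← h2]
      apply Real.arccos_lt_arccos (by norm_num)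
      · rw [hk3]
        have h3 : (1 : ℝ) / 4 < 1 / (2 * (1 + c)) := by
          rw [div_lt_div_iff₀ (by norm_num) (by linarith)]
          linarith
        linarith
      · linarith
    linarith
  · rw [hk3, div_lt_div_iff₀ (by norm_num) (by linarith)]
    linarith
  · rw [hk3, div_lt_div_iff₀ (by linarith) (by norm_num)]
    linarith
  · rw [hrad] at hε
    have hcont : Continuous fun κ : ℝ => Real.arccos (2 * κ - 1) / 4 :=
      (Real.continuous_arccos.comp ((continuous_const.mul continuous_id).sub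
        continuous_const)).div_const 4
    have hopen : IsOpen {κ : ℝ | ε < Real.arccos (2 * κ - 1) / 4} :=
      isOpen_lt continuous_const hcont
    obtain ⟨δ, hδ, hball⟩ := Metric.isOpen_iff.1 hopen k3 hε
    have hm : 0 < min (δ / 2) (1 - k3) := lt_min (by linarith) (by linarith)
    have hm1 : min (δ / 2) (1 - k3) ≤ δ / 2 := min_le_left _ _
    have hm2 : min (δ / 2) (1 - k3) ≤ 1 - k3 := min_le_right _ _
    refine ⟨k3 + min (δ / 2) (1 - k3), by linarith, by linarith, ?_⟩
    have hin : k3 + min (δ / 2) (1 - k3) ∈ Metric.ball k3 δ := by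
      rw [Metric.mem_ball, Real.dist_eq, add_sub_cancel_left, abs_of_pos hm]
      linarith
    exact hball hin

end Pool.Agent.H91.FN
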